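import Pool.Agent.helper37.L5.SpecE

/-!
# MP_baa4d7_al, project L5, block E, row TG5E: the alternating sum of the traces
-/

set_option autoImplicit false

namespace Pool.Agent.L5

open Pool.Agent.helper58.DC Pool.Agent.DI Pool.Agent.GR Pool.Agent.OB Pool.Agent.DR Pool.Agent.FI Pool.Agent.FI3 Pool.Agent.FI4 Pool.Agent.FI4I Pool.Agent.FI4E Pool.Agent.LE

open Classical in
theorem TG5E_fs {ι : Type} [Fintype ι] (S : Set ι) (f : ι → ℂ) : ∑ᶠ x ∈ S, f x = ∑ x : ι, if x ∈ S then f x else 0 := by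
  rw [finsum_eq_sum_of_fintype]
  refine Finset.sum_congr rfl fun x _ => ?_
  by_cases h : x ∈ S
  · rw [if_pos h, finsum_eq_if, if_pos h]
  · rw [if_neg h, finsum_eq_if, if_neg h]

/-- exchange of two finite sums -/
theorem TG5E_ex {ι κ : Type} [Finite ι] [Finite κ] (A : Set κ) (B : ι → κ → Prop) (a : κ → ℂ) (t : κ → ι → ℂ) :
    ∑ᶠ g : ι, ∑ᶠ C ∈ {C : κ | C ∈ A ∧ B g C}, a C * t C g = ∑ᶠ C ∈ A, a C * ∑ᶠ g ∈ {g : ι | B g C}, t C g := by
  classical
  have : Fintype ι := Fintype.ofFinite ι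
  have : Fintype κ := Fintype.ofFinite κ
  rw [finsum_eq_sum_of_fintype, TG5E_fs, Finset.sum_congr rfl fun g _ => TG5E_fs {C : κ | C ∈ A ∧ B g C} fun C => a C * t C g,
    Finset.sum_comm]
  refine Finset.sum_congr rfl fun C _ => ?_
  by_cases hC : C ∈ A
  · rw [if_pos hC, TG5E_fs, Finset.mul_sum]
    refine Finset.sum_congr rfl fun g _ => ?_
    by_cases hB : B g C
    · rw [if_pos (show C ∈ {C : κ | C ∈ A ∧ B g C} from ⟨hC, hB⟩), if_pos (show g ∈ {g : ι | B g C} from hB)]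
    · rw [if_neg (show C ∉ {C : κ | C ∈ A ∧ B g C} from fun h => hB h.2), if_neg (show g ∉ {g : ι | B g C} from hB), mul_zero]
  · rw [if_neg hC]
    exact Finset.sum_eq_zero fun g _ => if_neg fun h => hC h.1

theorem TG5E (hTOE : TOE5_stmt) (hLCG : LCG5_stmt) (hIHE : IHE5_stmt) (hFMX3 : FMX3_stmt) (hTEI : TEI5_stmt) (hOUP : OUP5_stmt)
    (hBAA : BAA_stmt) (hLEL : LEL_stmt) : TG5E_stmt := by
  classical
  intro p M hs H hH G _ _ D x θ χ hRt hHyp e n R hR hRD hRne α hα hin hIH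
  have hc0 : (Nat.card (TT M D θ) : ℂ) ≠ 0 := Nat.cast_ne_zero.2 Nat.card_pos.ne'
  apply mul_left_cancel₀ hc0
  have hRN : nz R = ⊤ := top_le_iff.1 hR.1.2.2
  have hCR : NCh p ⊤ R ({R} : Finset (Subgroup G)) := by
    refine ⟨⟨?_, Finset.mem_singleton_self R, ?_, fun _ _ => le_top, ?_⟩, ?_⟩
    · rw [Finset.coe_singleton]
      exact Set.subsingleton_singleton.isChain
    · intro Q hQ
      rw [Finset.mem_singleton.1 hQ]
    · intro Q hQ
      rw [Finset.mem_singleton.1 hQ]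
      exact hR.1.2.1
    · intro Q hQ Q' hQ' _
      rw [Finset.mem_singleton.1 hQ, hRN]
      exact le_top
  have hnR : nrm ({R} : Finset (Subgroup G)) = ⊤ := by
    unfold nrm
    rw [Finset.iInf_singleton]
    exact hRN
  have hset : {C : Finset (Subgroup G) | NCh p ⊤ R C} = insert {R} {C : Finset (Subgroup G) | NCh p ⊤ R C ∧ C ≠ {R}} := by
    ext C
    rw [Set.mem_insert_iff]
    constructor
    · intro h
      by_cases h1 : C = {R}
      · exact Or.inl h1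
      · exact Or.inr ⟨h, h1⟩
    · rintro (h | h)
      · rw [h]
        exact hCR
      · exact h.1
  have hnot : ({R} : Finset (Subgroup G)) ∉ {C : Finset (Subgroup G) | NCh p ⊤ R C ∧ C ≠ {R}} := fun h => h.2 rfl
  have hOm : Om p M χ R α = ∑ᶠ C ∈ {C : Finset (Subgroup G) | NCh p ⊤ R C}, (-1 : ℂ) ^ (C.card + 1) *
      ∑ᶠ g ∈ {g : G | FxC (al α g) C}, tL p M χ (nrm C) (al α g) :=
    TG5E_ex {C : Finset (Subgroup G) | NCh p ⊤ R C} (fun g C => FxC (al α g) C) (fun C => (-1 : ℂ) ^ (C.card + 1))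
      (fun C g => tL p M χ (nrm C) (al α g))
  -- the chain with one term
  have hfirst : ∑ᶠ g ∈ {g : G | FxC (al α g) ({R} : Finset (Subgroup G))}, tL p M χ (⊤ : Subgroup G) (al α g) =
      (Nat.card G : ℂ) * tE p M ⊤ θ α := by
    have h1 : {g : G | FxC (al α g) ({R} : Finset (Subgroup G))} = Set.univ := by
      ext g
      refine ⟨fun _ => Set.mem_univ _, fun _ Q hQ => ?_⟩
      rw [Finset.mem_singleton.1 hQ]
      exact (hBAA G M p (al α g) R R R χ χ χ).1.2.2.2.2.2.2.2.2 hR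
    have h2 : am α ⊤ = ⊤ := (hBAA G M p α R R R χ χ χ).1.2.2.2.2.2.1
    have h4 : ∀ β : MulAut G, tL p M χ (⊤ : Subgroup G) β = tE p M ⊤ θ β := fun β => by
      show tS p ⊤ (Blk M χ ⊤) β = tS p ⊤ (Bl M ⊤ θ) β
      rw [(hLEL p M hs G D x θ χ hRt).1]
    have h3 : ∀ g : G, tL p M χ (⊤ : Subgroup G) (al α g) = tE p M ⊤ θ α := fun g =>
      (h4 _).trans ((hTEI p M hs G θ α).2.1 ⊤ h2 g (Subgroup.mem_top g))
    have : Fintype G := Fintype.ofFinite G
    rw [h1, finsum_mem_univ, finsum_congr h3, finsum_eq_sum_of_fintype, Finset.sum_const, Finset.card_univ, nsmul_eq_mul,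
      Nat.card_eq_fintype_card]
  have hterm : ∀ C ∈ {C : Finset (Subgroup G) | NCh p ⊤ R C ∧ C ≠ {R}},
      (Nat.card (TT M D θ) : ℂ) * ((-1 : ℂ) ^ (C.card + 1) * ∑ᶠ g ∈ {g : G | FxC (al α g) C}, tL p M χ (nrm C) (al α g)) =
      (-1 : ℂ) ^ (C.card + 1) * ∑ᶠ g ∈ {g : G | FxC (al α g) C},
        ∑ᶠ h ∈ {h : G | (∀ Q ∈ C, Q ≤ cjS h D) ∧ FxR M (cjS h D) (cjF h θ) (al α g)},
          tE p M (nrm C ⊓ nz (Ec p e (cjS h D))) (cjF h θ) (al α g) := by
    rintro C ⟨hC, hne⟩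
    obtain ⟨Q, hQC, hRQ, hQp, -, hmax, hQn, hnz, hcz⟩ := hFMX3 G p ⊤ R C hC hne
    have hMid : Mid p Q (nrm C) := ⟨hQp, hQn, hcz, hnz⟩
    have hnt : nrm C ≠ ⊤ := by
      intro h
      have h1 : Q ≤ R := hR.2 ⟨le_top, hQp, by rw [← h]; exact hnz⟩
      exact absurd hRQ (not_lt_of_ge h1)
    have hlt : Nat.card (nrm C) < Nat.card G :=
      lt_of_le_of_ne (Subgroup.card_le_card_group _) fun h => hnt (Subgroup.eq_top_of_card_eq _ h)
    have hRed := hIHE p M hs H hH G D x θ χ hRt hHyp e n Q (nrm C) hMid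
      (fun D' x' θ' χ' h1 h2 β h3 h4 => hIH (nrm C) hlt D' x' θ' χ' h1 h2 β h3 h4)
    have hL := hLCG p M hs G D x θ χ hRt C Q hQC hmax hMid α hα
    have hS : ∑ᶠ g ∈ {g : G | FxC (al α g) C},
        ∑ᶠ h ∈ {h : G | (∀ Q ∈ C, Q ≤ cjS h D) ∧ FxR M (cjS h D) (cjF h θ) (al α g)},
          tE p M (nrm C) (cjF h θ) (al α g) = ∑ᶠ g ∈ {g : G | FxC (al α g) C},
        ∑ᶠ h ∈ {h : G | (∀ Q ∈ C, Q ≤ cjS h D) ∧ FxR M (cjS h D) (cjF h θ) (al α g)},
          tE p M (nrm C ⊓ nz (Ec p e (cjS h D))) (cjF h θ) (al α g) := by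
      refine finsum_mem_congr rfl fun g hg => finsum_mem_congr rfl fun h hh => ?_
      obtain ⟨y, hy⟩ := (hOUP G α n).1 hin g
      exact hRed h (hh.1 Q hQC) (al α g) ((hBAA G M p (al α g) R R R χ χ χ).2.2.2.2.2.2.2.1 C hg) hh.2
        ⟨y, (hOUP G (al α g) n).2.1 y hy C hg, hy⟩
    rw [← hS, ← hL]
    ring
  rw [hOm, hset, finsum_mem_insert _ hnot (Set.toFinite _), hnR, Finset.card_singleton, hfirst, mul_add,
    mul_finsum_mem, finsum_mem_congr rfl hterm, hTOE p M hs G D x θ χ hRt e R hR hRD hRne α hα]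
  ring

end Pool.Agent.L5
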